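import Pool.Agent.UL6.Stmts
import Pool.Agent.Helper27_UL5.HMX
import Pool.Agent.Helper32_UL5.LAT

/-!
# Row LSB of squad UL6 (MP_c7c9bf_co): the slab arrangement
-/

set_option autoImplicit false

namespace Pool.Agent.UL6.H2

open MeasureTheory Set Pool.Agent.UL3 Pool.Agent.UL4 Pool.Agent.UL5 Pool.Agent.UL5.H32

theorem cr_lin (u : ℝ × ℝ) (a b : ℝ) (x : ℝ × ℝ) : cr u (a • u + b • x) = b * cr u x := by
  unfold cr
  simp only [Prod.smul_fst, Prod.smul_snd, smul_eq_mul, Prod.fst_add, Prod.snd_add]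
  ring

theorem odd_abs (k : ℤ) : (1 : ℝ) ≤ |((2 * k + 1 : ℤ) : ℝ)| := by
  have h : (1 : ℤ) ≤ |2 * k + 1| := by
    rcases le_or_gt 0 k with h | h
    · rw [abs_of_nonneg (by omega)]; omega
    · rw [abs_of_neg (by omega)]; omega
  exact_mod_cast h

/-- the lattice part -/
theorem latt {C : Set (ℝ × ℝ)} (h : PB C) {u w : ℝ × ℝ} (hu : u ∉ interior C)
    (hle : ∀ w ∈ C, |cr u w| ≤ Hm C u) (hpos : 0 < Hm C u) (hy : Hm C u ≤ cr u w) (b c : ℤ)
    (hm : (b : ℝ) • u + (c : ℝ) • w ∈ interior C) : b = 0 ∧ c = 0 := by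
  have hc : c = 0 := by
    by_contra hc
    rcases lt_or_gt_of_ne hc with h1 | h1
    · have h2 := level_lt h hle hpos (int_neg h hm)
      have h3 : cr u (-((b : ℝ) • u + (c : ℝ) • w)) = -(c : ℝ) * cr u w := by
        have e : -((b : ℝ) • u + (c : ℝ) • w) = (-(b : ℝ)) • u + (-(c : ℝ)) • w := by module
        rw [e, cr_lin]
      rw [h3] at h2
      have h4 : (1 : ℝ) ≤ -(c : ℝ) := by
        have : (1 : ℤ) ≤ -c := by omega
        exact_mod_cast this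
      nlinarith
    · have h2 := level_lt h hle hpos hm
      rw [cr_lin] at h2
      have h4 : (1 : ℝ) ≤ (c : ℝ) := by
        have : (1 : ℤ) ≤ c := by omega
        exact_mod_cast this
      nlinarith
  subst hc
  rw [Int.cast_zero, zero_smul, add_zero] at hm
  have h1 := lt_one h hu hm
  have h2 : |b| < 1 := by exact_mod_cast h1
  exact ⟨Int.abs_lt_one_iff.1 h2, rfl⟩

/-- the translated part -/
theorem shf {C : Set (ℝ × ℝ)} (h : PB C) {u q : ℝ × ℝ} {t : ℝ} (ht0 : 0 ≤ t) (ht1 : t ≤ 1)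
    (hle : ∀ w ∈ C, |cr u w| ≤ Hm C u) (hpos : 0 < Hm C u)
    (hq : Hm C u ≤ (1 + t) * cr u q)
    (hs : ∀ s : ℝ, 1 / (1 + t) ≤ |s| → q + s • u ∉ interior C) (b c : ℤ)
    (hm : ((1 + t)⁻¹ * ((2 * (b + c) + 1 : ℤ) : ℝ)) • u + ((2 * c + 1 : ℤ) : ℝ) • q ∈
      interior C) : False := by
  have htp : 0 < 1 + t := by linarith
  have hqp : 0 < cr u q := by
    by_contra hc
    push Not at hc
    nlinarith
  have hq2 : Hm C u ≤ 3 * cr u q := by nlinarith
  have hab : ∀ k : ℤ, 1 / (1 + t) ≤ |(1 + t)⁻¹ * ((2 * k + 1 : ℤ) : ℝ)| := by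
    intro k
    rw [abs_mul, abs_of_pos (inv_pos.2 htp), one_div]
    have h1 := odd_abs k
    have h2 : 0 < (1 + t)⁻¹ := inv_pos.2 htp
    nlinarith
  rcases lt_trichotomy c 0 with h1 | h1 | h1
  · have h2 := int_neg h hm
    have e : -(((1 + t)⁻¹ * ((2 * (b + c) + 1 : ℤ) : ℝ)) • u + ((2 * c + 1 : ℤ) : ℝ) • q) =
        (-((1 + t)⁻¹ * ((2 * (b + c) + 1 : ℤ) : ℝ))) • u + (-((2 * c + 1 : ℤ) : ℝ)) • q := by
      module
    rcases eq_or_ne c (-1) with h3 | h3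
    · subst h3
      apply hs (-((1 + t)⁻¹ * ((2 * (b + -1) + 1 : ℤ) : ℝ)))
      · rw [abs_neg]
        exact hab _
      · rw [e] at h2
        have e2 : (-((2 * (-1 : ℤ) + 1 : ℤ) : ℝ)) • q = q := by
          norm_num
        rw [e2, add_comm] at h2
        exact h2
    · have h4 : (3 : ℝ) ≤ -((2 * c + 1 : ℤ) : ℝ) := by
        have : (3 : ℤ) ≤ -(2 * c + 1) := by omega
        exact_mod_cast this
      have h5 := level_lt h hle hpos h2
      rw [e, cr_lin] at h5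
      nlinarith
  · subst h1
    apply hs ((1 + t)⁻¹ * ((2 * (b + 0) + 1 : ℤ) : ℝ)) (hab _)
    have e2 : (((2 * (0 : ℤ) + 1 : ℤ) : ℝ)) • q = q := by
      norm_num
    rw [e2, add_comm] at hm
    exact hm
  · have h4 : (3 : ℝ) ≤ ((2 * c + 1 : ℤ) : ℝ) := by
      have : (3 : ℤ) ≤ 2 * c + 1 := by omega
      exact_mod_cast this
    have h5 := level_lt h hle hpos hm
    rw [cr_lin] at h5
    nlinarith

/-- **LSB** -/
theorem lsb (fgi : FgiStmt) : LsbStmt := by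
  intro C u q t hC ht0 ht1 huC hu hq hs
  obtain ⟨hle, -, -, hpos, -⟩ := Pool.Agent.UL5.H27.hmx C hC
  have hu0 : u ≠ 0 := by
    rintro rfl
    exact hu hC.zero_mem
  have hHp := hpos u hu0
  have htp : 0 < 1 + t := by linarith
  obtain ⟨w, hw⟩ : ∃ w : ℝ × ℝ, w = (1 + t) • q + u := ⟨_, rfl⟩
  have hcw : cr u w = (1 + t) * cr u q := by
    have e : w = (1 : ℝ) • u + (1 + t) • q := by rw [hw]; module
    rw [e, cr_lin]
  have hy : Hm C u ≤ cr u w := by rw [hcw]; exact hq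
  have hdt : dt ![up u 0, up w 0, up 0 (1 / 2)] = (1 + t) / 2 * cr u q := by
    unfold dt
    rw [Matrix.det_fin_three]
    simp only [Matrix.of_apply, Matrix.cons_val_zero, Matrix.cons_val_one, Matrix.cons_val_two,
      Matrix.head_cons, Matrix.tail_cons, Matrix.cons_val, up_zero, up_one, up_two,
      Prod.fst_zero, Prod.snd_zero]
    have e : u.1 * w.2 * (1 / 2) - u.1 * 0 * 0 - u.2 * w.1 * (1 / 2) + u.2 * 0 * 0 +
        0 * w.1 * 0 - 0 * w.2 * 0 = (1 + t) / 2 * cr u q := by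
      have e1 : u.1 * w.2 - u.2 * w.1 = (1 + t) * cr u q := hcw
      linear_combination e1 / 2
    rw [e, abs_of_pos]
    rw [hcw] at hy
    linarith
  have hsum : ∀ n : Fin 3 → ℤ,
      (∑ i, (n i : ℝ) • (![up u 0, up w 0, up 0 (1 / 2)] : Fin 3 → E3) i) =
        up ((n 0 : ℝ) • u + (n 1 : ℝ) • w) ((n 2 : ℝ) / 2) := by
    intro n
    rw [Fin.sum_univ_three]
    simp only [Matrix.cons_val_zero, Matrix.cons_val_one, Matrix.cons_val_two, Matrix.head_cons,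
      Matrix.tail_cons, Matrix.cons_val]
    rw [up_smul, up_smul, up_smul, up_add, up_add]
    congr 1
    · module
    · ring
  refine ⟨![up u 0, up w 0, up 0 (1 / 2)], up ((1 / 2 : ℝ) • w) (1 / 2), ?_, ?_, ?_, hdt⟩
  · rw [hdt]
    rw [hcw] at hy
    linarith
  · intro n hn
    rw [Set.disjoint_left]
    rintro x hx ⟨x', hx', hxx⟩
    obtain ⟨p, z₁, rfl⟩ : ∃ (p : ℝ × ℝ) (z₁ : ℝ), x' = up p z₁ := ⟨_, _, (up_self x').symm⟩
    have e1 : x = up (p + (2 : ℝ) • ((n 0 : ℝ) • u + (n 1 : ℝ) • w)) (z₁ + n 2) := by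
      rw [← hxx]
      show up p z₁ + (2 : ℝ) • ∑ i, (n i : ℝ) • (![up u 0, up w 0, up 0 (1 / 2)] : Fin 3 → E3) i = _
      rw [hsum, up_smul, up_add]
      congr 1
      ring
    rw [e1] at hx
    obtain ⟨h1, h2, h3⟩ := fgi C (1 - t) 1 _ _ hC (by linarith) one_pos (by linarith) hx'
    obtain ⟨h4, h5, h6⟩ := fgi C (1 - t) 1 _ _ hC (by linarith) one_pos (by linarith) hx
    have hn2 : n 2 = 0 := by
      have h7 : |((n 2 : ℤ) : ℝ)| < 1 := abs_lt.2 ⟨by linarith, by linarith⟩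
      have h8 : |n 2| < 1 := by exact_mod_cast h7
      exact Int.abs_lt_one_iff.1 h8
    rw [hn2, Int.cast_zero, add_zero] at h6
    have hρ0 : 0 < 1 - (1 - t) * z₁ := by nlinarith
    have hρ1 : 1 - (1 - t) * z₁ ≤ 1 := by nlinarith
    have h7 : (1 - (1 - t) * z₁)⁻¹ • ((n 0 : ℝ) • u + (n 1 : ℝ) • w) ∈ interior C := by
      have h8 := hC.cvx.interior h6 (int_neg hC h3) (by norm_num : (0 : ℝ) ≤ 1 / 2)
        (by norm_num : (0 : ℝ) ≤ 1 / 2) (by norm_num)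
      have e2 : (1 / 2 : ℝ) • ((1 - (1 - t) * z₁)⁻¹ •
          (p + (2 : ℝ) • ((n 0 : ℝ) • u + (n 1 : ℝ) • w))) +
          (1 / 2 : ℝ) • -((1 - (1 - t) * z₁)⁻¹ • p) =
          (1 - (1 - t) * z₁)⁻¹ • ((n 0 : ℝ) • u + (n 1 : ℝ) • w) := by module
      rwa [e2] at h8
    have h9 := int_smul hC h7 hρ0.le hρ1
    rw [smul_smul, mul_inv_cancel₀ hρ0.ne', one_smul] at h9
    obtain ⟨h10, h11⟩ := latt hC hu (hle u) hHp hy (n 0) (n 1) h9
    apply hn
    funext i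
    fin_cases i
    · exact h10
    · exact h11
    · exact hn2
  · intro n hmem
    rw [hsum, up_add] at hmem
    obtain ⟨h1, h2, h3⟩ := fgi C (1 - t) 1 _ _ hC (by linarith) one_pos (by linarith) hmem
    have hn2 : n 2 = 0 := by
      have h7 : |((n 2 : ℤ) : ℝ)| < 1 := abs_lt.2 ⟨by linarith, by linarith⟩
      have h8 : |n 2| < 1 := by exact_mod_cast h7
      exact Int.abs_lt_one_iff.1 h8
    rw [hn2, Int.cast_zero, zero_div, add_zero] at h3
    refine shf hC ht0 ht1 (hle u) hHp hq hs (n 0) (n 1) ?_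
    have e2 : (1 - (1 - t) * (1 / 2))⁻¹ = 2 * (1 + t)⁻¹ := by
      rw [show 1 - (1 - t) * (1 / 2) = (1 + t) / 2 by ring, inv_div]
      ring
    have e3 : (1 - (1 - t) * (1 / 2))⁻¹ • ((1 / 2 : ℝ) • w + ((n 0 : ℝ) • u + (n 1 : ℝ) • w)) =
        ((1 + t)⁻¹ * ((2 * (n 0 + n 1) + 1 : ℤ) : ℝ)) • u + ((2 * n 1 + 1 : ℤ) : ℝ) • q := by
      rw [e2, hw]
      have e4 : ((2 * n 1 + 1 : ℤ) : ℝ) • q =
          ((1 + t)⁻¹ * (1 + t) * ((2 * n 1 + 1 : ℤ) : ℝ)) • q := by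
        rw [inv_mul_cancel₀ htp.ne', one_mul]
      rw [e4]
      push_cast
      module
    rwa [e3] at h3

end Pool.Agent.UL6.H2
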