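import Pool.Agent.UL6.Stmts2
import Pool.Agent.Helper2_UL6.LSB

/-!
# Row DLB of squad UL6 (MP_c7c9bf_co): the lattice of the slab arrangement for double frusta
-/

set_option autoImplicit false

namespace Pool.Agent.UL6.H2

open MeasureTheory Set Pool.Agent.UL3 Pool.Agent.UL4 Pool.Agent.UL5 Pool.Agent.UL5.H32

/-- the case of height `1/2` -/
theorem half_case {C : Set (ℝ × ℝ)} (h : PB C) {u q w : ℝ × ℝ} {t : ℝ} (ht0 : 0 ≤ t)
    (ht1 : t ≤ 1) (hle : ∀ w ∈ C, |cr u w| ≤ Hm C u) (hpos : 0 < Hm C u)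
    (hq : Hm C u ≤ (1 + t) * cr u q)
    (hs : ∀ s : ℝ, 1 / (1 + t) ≤ |s| → q + s • u ∉ interior C) (hw : w = (1 + t) • q + u)
    (b c : ℤ)
    (hm : (1 - (1 - t) * (1 / 2))⁻¹ • ((b : ℝ) • u + (c : ℝ) • w + (1 / 2 : ℝ) • w) ∈
      interior C) : False := by
  have htp : 0 < 1 + t := by linarith
  refine shf h ht0 ht1 hle hpos hq hs b c ?_
  have e2 : (1 - (1 - t) * (1 / 2))⁻¹ = 2 * (1 + t)⁻¹ := by
    rw [show 1 - (1 - t) * (1 / 2) = (1 + t) / 2 by ring, inv_div]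
    ring
  have e3 : (1 - (1 - t) * (1 / 2))⁻¹ • ((b : ℝ) • u + (c : ℝ) • w + (1 / 2 : ℝ) • w) =
      ((1 + t)⁻¹ * ((2 * (b + c) + 1 : ℤ) : ℝ)) • u + ((2 * c + 1 : ℤ) : ℝ) • q := by
    rw [e2, hw]
    have e4 : ((2 * c + 1 : ℤ) : ℝ) • q =
        ((1 + t)⁻¹ * (1 + t) * ((2 * c + 1 : ℤ) : ℝ)) • q := by
      rw [inv_mul_cancel₀ htp.ne', one_mul]
    rw [e4]
    push_cast
    module
  rwa [e3] at hm

/-- **DLB** -/
theorem dlb (tdd : TddStmt) : DlbStmt := by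
  intro C u q t hC ht0 ht1 huC hu hq hs
  obtain ⟨hle, -, -, hpos, -⟩ := Pool.Agent.UL5.H27.hmx C hC
  have hu0 : u ≠ 0 := by
    rintro rfl
    exact hu hC.zero_mem
  have hHp := hpos u hu0
  obtain ⟨-, -, hint⟩ := tdd C t hC ht0 ht1
  obtain ⟨w, hw⟩ : ∃ w : ℝ × ℝ, w = (1 + t) • q + u := ⟨_, rfl⟩
  have hcw : cr u w = (1 + t) * cr u q := by
    have e : w = (1 : ℝ) • u + (1 + t) • q := by rw [hw]; module
    rw [e, cr_lin]
  have hy : Hm C u ≤ cr u w := by rw [hcw]; exact hq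
  have hdt : dt ![up u 0, up w 0, up ((1 / 2 : ℝ) • w) (1 / 2)] = (1 + t) / 2 * cr u q := by
    unfold dt
    rw [Matrix.det_fin_three]
    simp only [Matrix.of_apply, Matrix.cons_val_zero, Matrix.cons_val_one, Matrix.cons_val_two,
      Matrix.head_cons, Matrix.tail_cons, Matrix.cons_val, up_zero, up_one, up_two,
      Prod.smul_fst, Prod.smul_snd, smul_eq_mul]
    have e : u.1 * w.2 * (1 / 2) - u.1 * 0 * (1 / 2 * w.2) - u.2 * w.1 * (1 / 2) +
        u.2 * 0 * (1 / 2 * w.1) + 0 * w.1 * (1 / 2 * w.2) - 0 * w.2 * (1 / 2 * w.1) =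
        (1 + t) / 2 * cr u q := by
      have e1 : u.1 * w.2 - u.2 * w.1 = (1 + t) * cr u q := hcw
      linear_combination e1 / 2
    rw [e, abs_of_pos]
    rw [hcw] at hy
    linarith
  have hsum : ∀ n : Fin 3 → ℤ,
      (∑ i, (n i : ℝ) • (![up u 0, up w 0, up ((1 / 2 : ℝ) • w) (1 / 2)] : Fin 3 → E3) i) =
        up ((n 0 : ℝ) • u + (n 1 : ℝ) • w + ((n 2 : ℝ) / 2) • w) ((n 2 : ℝ) / 2) := by
    intro n
    rw [Fin.sum_univ_three]
    simp only [Matrix.cons_val_zero, Matrix.cons_val_one, Matrix.cons_val_two, Matrix.head_cons,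
      Matrix.tail_cons, Matrix.cons_val]
    rw [up_smul, up_smul, up_smul, up_add, up_add]
    congr 1
    · module
    · ring
  refine ⟨![up u 0, up w 0, up ((1 / 2 : ℝ) • w) (1 / 2)], ?_, ?_, hdt⟩
  · rw [hdt]
    rw [hcw] at hy
    linarith
  · intro n hn hmem
    rw [hsum] at hmem
    obtain ⟨h1, h2⟩ := hint _ _ hmem
    have h3 : |n 2| < 2 := by
      have h4 : |((n 2 : ℤ) : ℝ)| < 2 := by
        rw [abs_div, abs_of_pos (by norm_num : (0 : ℝ) < 2)] at h1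
        linarith
      exact_mod_cast h4
    have h4 := abs_lt.1 h3
    have h5 : n 2 = 0 ∨ n 2 = 1 ∨ n 2 = -1 := by omega
    rcases h5 with h5 | h5 | h5
    · rw [h5, Int.cast_zero, zero_div, abs_zero, mul_zero, sub_zero, inv_one, one_smul, zero_smul,
        add_zero] at h2
      obtain ⟨h10, h11⟩ := latt hC hu (hle u) hHp hy (n 0) (n 1) h2
      apply hn
      funext i
      fin_cases i
      · exact h10
      · exact h11
      · exact h5
    · rw [h5, Int.cast_one, abs_of_pos (by norm_num : (0 : ℝ) < 1 / 2)] at h2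
      exact half_case hC ht0 ht1 (hle u) hHp hq hs hw (n 0) (n 1) h2
    · have e0 : (((-1 : ℤ) : ℝ) / 2) = -(1 / 2) := by norm_num
      rw [h5, e0, abs_neg, abs_of_pos (by norm_num : (0 : ℝ) < 1 / 2)] at h2
      have h6 := int_neg hC h2
      have e1 : -((1 - (1 - t) * (1 / 2))⁻¹ •
          ((n 0 : ℝ) • u + (n 1 : ℝ) • w + (-(1 / 2) : ℝ) • w)) =
          (1 - (1 - t) * (1 / 2))⁻¹ •
          (((-(n 0) : ℤ) : ℝ) • u + ((-(n 1) : ℤ) : ℝ) • w + (1 / 2 : ℝ) • w) := by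
        push_cast
        module
      rw [e1] at h6
      exact half_case hC ht0 ht1 (hle u) hHp hq hs hw (-(n 0)) (-(n 1)) h6

end Pool.Agent.UL6.H2
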